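import Mathlib
import Pool.Agent.Y295.BV.K
set_option autoImplicit false

/-!
# Stein's restriction conjecture: densities rough in the block-radial variables

Let `ℝ^n = V_1 ⊕ ... ⊕ V_r` be an orthogonal decomposition into nonzero subspaces of arbitrary
dimensions, `2 ≤ r < n`, and let `P_i` be the projection onto `V_i`. A function is called radial
below if it depends only on `|P_1 x|, ..., |P_r x|` (for one-dimensional `V_i` it may depend on
`P_i x` itself). Let `ω(x) = ∑_i P_i x / |P_i x|` be the directions of the projections. We consider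
densities on the unit sphere of the form

`Φ(x, ω(x)) ∏_{i < N} G_i(x, ⟨ζ_i, x⟩)`.

* `Φ(x, w)` is measurable and radial in `x`, without any smoothness in `x`, and has `n + r + 1`
  bounded derivatives in `w`. Thus `Φ(x, ω(x))` is smooth along the orbits of the group
  `O(V_1) × ... × O(V_r)` and rough transversally. The case of `Φ` independent of `w` is the case
  of arbitrary bounded radial functions `F(x)`.
* The vectors `ζ_i` are arbitrary, `G_i(x, t)` is measurable, bounded by one, radial in `x`, again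
  without smoothness in `x`, and of bounded variation in the second variable:
  `|G_i(x, t) - G_i(x, s)| ≤ κ_i(x, t) - κ_i(x, s)` for `s ≤ t`, where `0 ≤ κ_i ≤ 1`. For instance
  `G_i` may be the indicator function of the set where `⟨ζ_i, x⟩` is larger than an arbitrary
  measurable function of `|P_1 x|, ..., |P_r x|`.

We also consider superpositions of such densities, modulated by arbitrary frequencies, in which all
the data including the decomposition may depend on the term. The theorem: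

* For `r = 2` the Fourier transform of `g dσ` is in `L^q(ℝ^n)` for every `q > 2n/(n-1)`, the full
  conjectured range.
* For every `r` this holds for `q > 2 + 4/(2n-r-1)`.
* Every estimate `L^∞ → L^P` for the sphere of `ℝ^r` gives the estimate for these densities on the
  sphere of `ℝ^n` if `(q - 2)((n-r)/2 + 1/(P-2)) > 1`. In particular Stein's conjecture in `ℝ^r`
  implies it for these densities in `ℝ^n`, for every `n > r`, in the full range `q > 2n/(n-1)`.

The bounds depend on `n, r, N, q` only.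
-/

namespace Pool.Agent.Results.MP_6cbfb8_an.BlockVariation

open MeasureTheory Metric
open scoped ENNReal RealInnerProductSpace

/-- surface measure on the unit sphere -/
noncomputable def sigma (n : ℕ) : Measure (sphere (0 : EuclideanSpace ℝ (Fin n)) 1) :=
  (volume : Measure (EuclideanSpace ℝ (Fin n))).toSphere

/-- the Fourier transform of the measure `g dσ` -/
noncomputable def ft {n : ℕ} (g : sphere (0 : EuclideanSpace ℝ (Fin n)) 1 → ℂ)
    (ξ : EuclideanSpace ℝ (Fin n)) : ℂ :=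
  ∫ x, Complex.exp (-(2 * Real.pi * ⟪(x : EuclideanSpace ℝ (Fin n)), ξ⟫ : ℝ) * Complex.I) * g x
    ∂(sigma n)

/-- Stein's estimate for the unit sphere of `ℝ^n` and the exponent `p`: the Fourier transform maps
densities bounded by one to a bounded subset of `L^p`. -/
def Stein (n : ℕ) (p : ℝ) : Prop :=
  ∃ C : ℝ, ∀ g : sphere (0 : EuclideanSpace ℝ (Fin n)) 1 → ℂ, Measurable g →
    (∀ x, ‖g x‖ ≤ 1) → eLpNorm (ft g) (ENNReal.ofReal p) ≤ ENNReal.ofReal C

/-- `ℝ^n` is the orthogonal sum of the `r` nonzero subspaces `V i`. -/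
def Orth {n r : ℕ} (V : Fin r → Submodule ℝ (EuclideanSpace ℝ (Fin n))) : Prop :=
  (∀ i, V i ≠ ⊥) ∧ (∀ i j, i ≠ j → V i ⟂ V j) ∧ ⨆ i, V i = ⊤

/-- `F x` depends only on the lengths of the orthogonal projections of `x` to the subspaces `V i`
and, for one-dimensional `V i`, on the projection itself. -/
def Radial {n r : ℕ} (V : Fin r → Submodule ℝ (EuclideanSpace ℝ (Fin n)))
    (F : EuclideanSpace ℝ (Fin n) → ℂ) : Prop :=
  ∀ x y : EuclideanSpace ℝ (Fin n),
    (∀ i, ‖(V i).starProjection x‖ = ‖(V i).starProjection y‖) →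
    (∀ i, Module.finrank ℝ (V i) = 1 → (V i).starProjection x = (V i).starProjection y) →
    F x = F y

/-- the directions of the projections, `ω(x) = ∑_i P_i x / |P_i x|` (a term with `P_i x = 0` is
zero) -/
noncomputable def omega {n r : ℕ} (V : Fin r → Submodule ℝ (EuclideanSpace ℝ (Fin n)))
    (x : EuclideanSpace ℝ (Fin n)) : EuclideanSpace ℝ (Fin n) :=
  ∑ i, ‖(V i).starProjection x‖⁻¹ • (V i).starProjection x

/-- `Φ x w` is measurable, radial in `x`, and has `n + r + 1` derivatives in `w`, which are bounded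
by `M`, like `Φ` itself. Nothing else is assumed about the dependence on `x`. -/
def Profile {n r : ℕ} (V : Fin r → Submodule ℝ (EuclideanSpace ℝ (Fin n))) (M : ℝ)
    (Φ : EuclideanSpace ℝ (Fin n) → EuclideanSpace ℝ (Fin n) → ℂ) : Prop :=
  Measurable (Function.uncurry Φ) ∧ (∀ w, Radial V fun x => Φ x w) ∧
  (∀ x, ContDiff ℝ ((n + r + 1 : ℕ) : WithTop ℕ∞) (Φ x)) ∧
  ∀ x w, ∀ k ≤ n + r + 1, ‖iteratedFDeriv ℝ k (Φ x) w‖ ≤ M

/-- The factors: `G x t` is measurable, bounded by one, radial in `x` and of bounded variation in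
`t`, in the sense that `‖G x t - G x s‖ ≤ κ x t - κ x s` for `s ≤ t` and a function `κ` with values
in `[0, 1]`. -/
def Factor {n r : ℕ} (V : Fin r → Submodule ℝ (EuclideanSpace ℝ (Fin n)))
    (G : EuclideanSpace ℝ (Fin n) → ℝ → ℂ) : Prop :=
  Measurable (Function.uncurry G) ∧ (∀ x t, ‖G x t‖ ≤ 1) ∧ (∀ t, Radial V fun x => G x t) ∧
  ∃ κ : EuclideanSpace ℝ (Fin n) → ℝ → ℝ, Measurable (Function.uncurry κ) ∧
    (∀ x t, 0 ≤ κ x t ∧ κ x t ≤ 1) ∧ ∀ x s t, s ≤ t → ‖G x t - G x s‖ ≤ κ x t - κ x s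

/-- The density `g` on the unit sphere of `ℝ^n` is a superposition
`∑_j e^{i⟨η_j, x⟩} Φ_j(x, ω_j(x)) ∏_{i < N} G_{ji}(x, ⟨ζ_{ji}, x⟩)`, where for every `j` there is an
orthogonal decomposition of `ℝ^n` into `r` subspaces with directions `ω_j`, for which `Φ_j` is a
profile with bound `M_j` and the `G_{ji}` are factors. -/
def Blocks {n : ℕ} (r N : ℕ) (M : ℕ → ℝ) (g : sphere (0 : EuclideanSpace ℝ (Fin n)) 1 → ℂ) :
    Prop :=
  ∃ (V : ℕ → Fin r → Submodule ℝ (EuclideanSpace ℝ (Fin n)))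
    (η : ℕ → EuclideanSpace ℝ (Fin n))
    (Φ : ℕ → EuclideanSpace ℝ (Fin n) → EuclideanSpace ℝ (Fin n) → ℂ)
    (ζ : ℕ → Fin N → EuclideanSpace ℝ (Fin n))
    (G : ℕ → Fin N → EuclideanSpace ℝ (Fin n) → ℝ → ℂ),
    (∀ j, Orth (V j)) ∧ (∀ j, Profile (V j) (M j) (Φ j)) ∧ (∀ j i, Factor (V j) (G j i)) ∧
    ∀ᵐ x ∂(sigma n), g x = ∑' j,
      Complex.exp ((⟪η j, (x : EuclideanSpace ℝ (Fin n))⟫ : ℝ) * Complex.I) *
        (Φ j (x : EuclideanSpace ℝ (Fin n)) (omega (V j) (x : EuclideanSpace ℝ (Fin n))) *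
          ∏ i, G j i (x : EuclideanSpace ℝ (Fin n)) ⟪ζ j i, (x : EuclideanSpace ℝ (Fin n))⟫)

/-- The estimate with exponent `q` for all the densities of this form. -/
def Holds (n r N : ℕ) (q : ℝ) : Prop :=
  ∃ C : ℝ, 0 < C ∧ ∀ (M : ℕ → ℝ), Summable M →
    ∀ g : sphere (0 : EuclideanSpace ℝ (Fin n)) 1 → ℂ, Blocks r N M g →
      MemLp (ft g) (ENNReal.ofReal q) ∧
      eLpNorm (ft g) (ENNReal.ofReal q) ≤ ENNReal.ofReal (C * ∑' j, M j)

/-- **Theorem.** Let `2 ≤ r < n`. The estimate with exponent `q` for superpositions of densities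
which are rough in `r` lengths and smooth in the directions, times `N` factors of bounded variation
in arbitrary directions, holds in each of the following cases: `r = 2` and `q` is in the full
conjectured range `q > 2n/(n-1)`; `q > 2 + 4/(2n-r-1)`; Stein's estimate is true for the sphere of
`ℝ^r` and some `P > 2` with `(q - 2)((n-r)/2 + 1/(P-2)) > 1`; Stein's conjecture is true in `ℝ^r`
and `q > 2n/(n-1)`. -/
theorem result (n r N : ℕ) (hr : 2 ≤ r) (hn : r < n) (q : ℝ)
    (h : (r = 2 ∧ 2 * (n : ℝ) / (n - 1) < q) ∨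
      2 + 4 / (2 * (n : ℝ) - r - 1) < q ∨
      (∃ P : ℝ, 2 < P ∧ Stein r P ∧ 1 < (q - 2) * (((n : ℝ) - r) / 2 + 1 / (P - 2))) ∨
      ((∀ P : ℝ, 2 * (r : ℝ) / (r - 1) < P → Stein r P) ∧ 2 * (n : ℝ) / (n - 1) < q)) :
    Holds n r N q := by
  have hq : 1 ≤ q := Pool.Agent.Y295.BV.adm_one n r hr hn q h
  obtain ⟨B, hB, hT⟩ := Pool.Agent.Y295.BV.main2 n r N (n + r + 1) hr hn (by omega) q h
  refine ⟨B + 1, by linarith, ?_⟩
  rintro M hM g ⟨V, η, Φ, ζ, G, hV, hΦ, hG, hg⟩
  have hM0 : ∀ j, 0 ≤ M j := fun j =>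
    (norm_nonneg _).trans ((hΦ j).2.2.2 0 0 0 (Nat.zero_le _))
  have hb : ∀ j x w, ‖Φ j x w‖ ≤ M j := by
    intro j x w
    have h1 := (hΦ j).2.2.2 x w 0 (Nat.zero_le _)
    rwa [norm_iteratedFDeriv_zero] at h1
  have hfac : ∀ j i, Pool.Agent.Y295.BV.Fac (G j i) := by
    intro j i
    obtain ⟨h1, h2, -, κ, h3, h4, h5⟩ := hG j i
    exact ⟨h1, h2, κ, h3, fun x t => (h4 x t).1, fun x t => (h4 x t).2, h5⟩
  refine Pool.Agent.Y295.BV.super' q hq (B + 1) (by linarith) M hM η
    (fun j x => Φ j x (omega (V j) x) * ∏ i, G j i x ⟪ζ j i, x⟫) ?_ ?_ ?_ g hg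
  · intro j
    refine Measurable.mul ?_ (Finset.measurable_prod _ fun i _ => ?_)
    · have h1 : Measurable fun x : EuclideanSpace ℝ (Fin n) => (x, omega (V j) x) :=
        measurable_id.prodMk (Pool.Agent.Y295.BV.om_meas (V j))
      have h2 := (hΦ j).1.comp h1
      exact h2
    · have h2 : Measurable fun x : EuclideanSpace ℝ (Fin n) => (x, (⟪ζ j i, x⟫ : ℝ)) :=
        measurable_id.prodMk (Pool.Agent.Y295.BV.in_meas _)
      have h3 := (hG j i).1.comp h2
      exact h3
  · intro j x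
    rw [norm_mul, norm_prod]
    calc ‖Φ j x (omega (V j) x)‖ * ∏ i, ‖G j i x ⟪ζ j i, x⟫‖ ≤ M j * 1 := by
          refine mul_le_mul (hb j x _) ?_ (Finset.prod_nonneg fun i _ => norm_nonneg _) (hM0 j)
          exact Finset.prod_le_one (fun i _ => norm_nonneg _) fun i _ => (hG j i).2.1 _ _
      _ = M j := mul_one _
  · intro j
    have h1 := hT (V j) (hV j) (ζ j) (G j) (hfac j) (fun i t => (hG j i).2.2.1 t) (Φ j) (hΦ j).1
      (hΦ j).2.1 (hΦ j).2.2.1 (M j) (fun y k hk w => (hΦ j).2.2.2 y w k hk)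
    refine h1.trans (ENNReal.ofReal_le_ofReal ?_)
    have := hM0 j
    nlinarith

end Pool.Agent.Results.MP_6cbfb8_an.BlockVariation
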