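import Mathlib
import Pool.Agent.Y251.HR.C5
import Pool.Agent.TH335.RF.P4
set_option autoImplicit false

/-!
# Stein's restriction conjecture: boundary values of holomorphic and pluriharmonic functions

Let `n = 2m`, `m ≥ 2`, and let `J` be an orthogonal complex structure on `ℝ^n`, so that the open
unit ball of `ℝ^n` is the unit ball of `ℂ^m`. If `u = F + conj G` is a pluriharmonic function in
this ball (`F`, `G` holomorphic) and the normalised fourth moments of `u` over the spheres of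
radius `s < 1` are at most `M^4` (for instance if `|u| ≤ M`), and if `g` is the boundary function
of `u`, then the Fourier transform of `g dσ` is in `L^q(ℝ^n)` for every `q > 2n/(n-1)`, the full
range of Stein's conjecture, with norm at most `C M`.

More generally this holds for superpositions `g(x) = ∑_j e^{i⟨η_j, x⟩} h_j(x)` of modulated
densities of this kind, where the complex structure may depend on `j`, and the norm is at most
`C ∑_j M_j`. No smoothness is assumed.
-/

namespace Pool.Agent.Results.MP_6cbfb8_an.PluriharmonicDensities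

open MeasureTheory Set Metric Complex Filter
open Pool.Agent.H789R2.FR (E)
open Pool.Agent.TH335.RF (mink)
open scoped ENNReal RealInnerProductSpace ComplexConjugate Topology

/-- surface measure on the unit sphere -/
noncomputable def sigma (n : ℕ) : Measure (sphere (0 : E n) 1) := (volume : Measure (E n)).toSphere

/-- the Fourier transform of the measure `g dσ` -/
noncomputable def ft {n : ℕ} (g : sphere (0 : E n) 1 → ℂ) (ξ : E n) : ℂ :=
  ∫ x, Complex.exp (-(2 * Real.pi * ⟪(x : E n), ξ⟫ : ℝ) * I) * g x ∂(sigma n)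

/-- `F` is holomorphic in the open unit ball of `ℝ^n` with respect to the complex structure `J`:
it is differentiable and its derivative is complex linear. -/
def Holo {n : ℕ} (J : E n →ₗᵢ[ℝ] E n) (F : E n → ℂ) : Prop :=
  ∀ x ∈ ball (0 : E n) 1, ∃ L : E n →L[ℝ] ℂ, HasFDerivAt F L x ∧ ∀ v, L (J v) = I * L v

/-- `h` is the boundary function of a function `F + conj G`, where `F` and `G` are holomorphic in
the open unit ball with respect to an orthogonal complex structure `J` on `ℝ^n`, and the averages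
of `|F + conj G|^4` over the spheres of radius `s < 1` are at most `M^4`. -/
def Pluri {n : ℕ} (M : ℝ) (h : sphere (0 : E n) 1 → ℂ) : Prop :=
  ∃ (J : E n →ₗᵢ[ℝ] E n) (F G : E n → ℂ), (∀ x, J (J x) = -x) ∧ Holo J F ∧ Holo J G ∧
    (∀ s : ℝ, 0 < s → s < 1 →
      ⨍ x : sphere (0 : E n) 1, ‖F (s • (x : E n)) + conj (G (s • (x : E n)))‖ ^ 4 ∂(sigma n) ≤
        M ^ 4) ∧
    ∀ᵐ x : sphere (0 : E n) 1 ∂(sigma n), Tendsto (fun s : ℝ =>
      F (s • (x : E n)) + conj (G (s • (x : E n)))) (𝓝[<] 1) (𝓝 (h x))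

/-- The density `g` on the unit sphere of `ℝ^n` is a superposition
`∑_j e^{i⟨η_j, x⟩} h_j(x)` of modulated densities as above, with the bounds `M_j`; the complex
structures may depend on `j`. -/
def Super {n : ℕ} (M : ℕ → ℝ) (g : sphere (0 : E n) 1 → ℂ) : Prop :=
  ∃ (η : ℕ → E n) (h : ℕ → sphere (0 : E n) 1 → ℂ), (∀ j, Pluri (M j) (h j)) ∧
    ∀ᵐ x : sphere (0 : E n) 1 ∂(sigma n), g x =
      ∑' j, Complex.exp ((⟪η j, (x : E n)⟫ : ℝ) * I) * h j x

/-! ### Proofs -/

theorem ft_mod {n : ℕ} (g : sphere (0 : E n) 1 → ℂ) (η ξ : E n) :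
    ft (fun x => Complex.exp ((⟪η, (x : E n)⟫ : ℝ) * I) * g x) ξ =
      ft g (ξ - (2 * Real.pi)⁻¹ • η) := by
  unfold ft
  refine integral_congr_ae (Filter.Eventually.of_forall fun x => ?_)
  simp only
  rw [← mul_assoc, ← Complex.exp_add, inner_sub_right, real_inner_smul_right,
    real_inner_comm (x : E n) η]
  have hpi := Real.pi_ne_zero
  congr 2
  push_cast
  field_simp
  ring

/-- **Theorem.** For every `q > 2n/(n-1)`, `n = 2m ≥ 4`, the Fourier transform of a superposition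
of modulated boundary functions of pluriharmonic functions is in `L^q`, with norm at most
`C ∑ M_j`. -/
theorem result (m : ℕ) (hm : 2 ≤ m) (q : ℝ)
    (hq : 2 * ((2 * m : ℕ) : ℝ) / (((2 * m : ℕ) : ℝ) - 1) < q) :
    ∃ C : ℝ, 0 < C ∧ ∀ M : ℕ → ℝ, (∀ j, 0 ≤ M j) → Summable M →
      ∀ g : sphere (0 : E (2 * m)) 1 → ℂ, Super M g →
        MemLp (ft g) (ENNReal.ofReal q) ∧
        eLpNorm (ft g) (ENNReal.ofReal q) ≤ ENNReal.ofReal (C * ∑' j, M j) := by
  have hm' : (2 : ℝ) ≤ m := by exact_mod_cast hm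
  have hq' : 4 * (m : ℝ) / (2 * m - 1) < q := by
    push_cast at hq
    rwa [← mul_assoc, show (2 : ℝ) * 2 = 4 by norm_num] at hq
  have hq1 : 1 ≤ q := by
    refine le_trans ?_ hq'.le
    rw [le_div_iff₀ (by linarith)]
    linarith
  have hq0 : 0 < q := by linarith
  obtain ⟨C, hC, hmain⟩ := Pool.Agent.Y251.HR.bdry_q m hm q hq'
  refine ⟨C ^ (1 / q), by positivity, ?_⟩
  rintro M hM0 hM g ⟨η, h, hh, hg⟩
  have hfin : IsFiniteMeasure (sigma (2 * m)) := by unfold sigma; infer_instance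
  -- one term
  have hone : ∀ j, AEStronglyMeasurable (h j) (sigma (2 * m)) ∧
      (∫⁻ x, ‖h j x‖ₑ ∂(sigma (2 * m)) ≤ ENNReal.ofReal ((sigma (2 * m)).real univ * M j)) ∧
      Measurable (ft (h j)) ∧ ∫⁻ ξ, ‖ft (h j) ξ‖ₑ ^ q ≤ ENNReal.ofReal (C * M j ^ q) := by
    intro j
    obtain ⟨J, F, G, hJ, hF, hG, hb, hl⟩ := hh j
    exact hmain J hJ F G hF hG (M j) (hM0 j) hb (h j) hl
  have hsub : ∀ j, Measurable fun ξ : E (2 * m) => ξ - (2 * Real.pi)⁻¹ • η j :=
    fun j => measurable_id.sub_const _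
  set gj : ℕ → sphere (0 : E (2 * m)) 1 → ℂ := fun j x =>
    Complex.exp ((⟪η j, (x : E (2 * m))⟫ : ℝ) * I) * h j x with hgj
  have hftj : ∀ j, ft (gj j) = fun ξ => ft (h j) (ξ - (2 * Real.pi)⁻¹ • η j) := by
    intro j
    funext ξ
    exact ft_mod (h j) (η j) ξ
  have hmj : ∀ j, Measurable (ft (gj j)) := by
    intro j
    rw [hftj]
    exact (hone j).2.2.1.comp (hsub j)
  have hLj : ∀ j, (∫⁻ ξ, ‖ft (gj j) ξ‖ₑ ^ q) ^ (1 / q) ≤ ENNReal.ofReal (C ^ (1 / q) * M j) := by
    intro j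
    have h1 : ∫⁻ ξ, ‖ft (gj j) ξ‖ₑ ^ q ≤ ENNReal.ofReal (C * M j ^ q) := by
      rw [hftj]
      refine le_trans (le_of_eq ?_) (hone j).2.2.2
      exact lintegral_sub_right_eq_self (fun ξ => ‖ft (h j) ξ‖ₑ ^ q) ((2 * Real.pi)⁻¹ • η j)
    refine (ENNReal.rpow_le_rpow h1 (by positivity)).trans (le_of_eq ?_)
    have hMq : 0 ≤ M j ^ q := Real.rpow_nonneg (hM0 j) q
    rw [ENNReal.ofReal_rpow_of_nonneg (by positivity) (by positivity),
      Real.mul_rpow hC.le hMq, ← Real.rpow_mul (hM0 j), mul_one_div_cancel hq0.ne',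
      Real.rpow_one]
  have hexm : ∀ η : E (2 * m), Measurable fun x : sphere (0 : E (2 * m)) 1 =>
      Complex.exp ((⟪η, (x : E (2 * m))⟫ : ℝ) * I) := by
    intro η
    have h4 : Continuous fun x : sphere (0 : E (2 * m)) 1 =>
      Complex.exp ((⟪η, (x : E (2 * m))⟫ : ℝ) * I) := by fun_prop
    exact h4.measurable
  have hsum : ∀ ξ, ft g ξ = ∑' j, ft (gj j) ξ := by
    intro ξ
    unfold ft
    have hexm2 : Measurable fun x : sphere (0 : E (2 * m)) 1 =>
        Complex.exp (-(2 * Real.pi * ⟪(x : E (2 * m)), ξ⟫ : ℝ) * I) := by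
      have h4 : Continuous fun x : sphere (0 : E (2 * m)) 1 =>
        Complex.exp (-(2 * Real.pi * ⟪(x : E (2 * m)), ξ⟫ : ℝ) * I) := by fun_prop
      exact h4.measurable
    have hen : ∀ (j : ℕ) (x : sphere (0 : E (2 * m)) 1),
        ‖Complex.exp (-(2 * Real.pi * ⟪(x : E (2 * m)), ξ⟫ : ℝ) * I) * gj j x‖ₑ = ‖h j x‖ₑ := by
      intro j x
      rw [← ofReal_norm, ← ofReal_norm]
      congr 1
      have h3 : -(((2 * Real.pi * ⟪(x : E (2 * m)), ξ⟫ : ℝ)) : ℂ) * I =
          ((-(2 * Real.pi * ⟪(x : E (2 * m)), ξ⟫) : ℝ) : ℂ) * I := by push_cast; ring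
      rw [norm_mul, h3, Complex.norm_exp_ofReal_mul_I, one_mul, hgj]
      simp only [norm_mul, Complex.norm_exp_ofReal_mul_I, one_mul]
    rw [← integral_tsum]
    · refine integral_congr_ae ?_
      filter_upwards [hg] with x hx
      rw [hx, ← tsum_mul_left]
    · exact fun j => hexm2.aestronglyMeasurable.mul
        ((hexm (η j)).aestronglyMeasurable.mul (hone j).1)
    · have h5 : ∑' j, ∫⁻ x, ‖Complex.exp (-(2 * Real.pi * ⟪(x : E (2 * m)), ξ⟫ : ℝ) * I) *
          gj j x‖ₑ ∂(sigma (2 * m)) ≤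
          ∑' j, ENNReal.ofReal ((sigma (2 * m)).real univ * M j) := by
        apply ENNReal.tsum_le_tsum
        intro j
        refine le_trans (le_of_eq ?_) (hone j).2.1
        exact lintegral_congr fun x => hen j x
      refine (h5.trans_lt ?_).ne
      rw [← ENNReal.ofReal_tsum_of_nonneg (fun j => mul_nonneg measureReal_nonneg (hM0 j))
        (hM.mul_left _)]
      exact ENNReal.ofReal_lt_top
  have hfun : ft g = fun ξ => ∑' j, ft (gj j) ξ := funext hsum
  have hmeas : Measurable (ft g) := by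
    rw [hfun]
    exact Measurable.tsum fun j => hmj j
  have hle : ∫⁻ ξ, ‖ft g ξ‖ₑ ^ q ≤ (ENNReal.ofReal (C ^ (1 / q) * ∑' j, M j)) ^ q := by
    calc ∫⁻ ξ, ‖ft g ξ‖ₑ ^ q ≤ ∫⁻ ξ, (∑' j, ‖ft (gj j) ξ‖ₑ) ^ q := by
          apply lintegral_mono
          intro ξ
          simp only
          rw [hsum]
          exact ENNReal.rpow_le_rpow enorm_tsum_le_tsum_enorm hq0.le
      _ ≤ (∑' j, (∫⁻ ξ, ‖ft (gj j) ξ‖ₑ ^ q) ^ (1 / q)) ^ q :=
          mink volume q hq1 (fun j ξ => ‖ft (gj j) ξ‖ₑ) fun j => (hmj j).enorm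
      _ ≤ (∑' j, ENNReal.ofReal (C ^ (1 / q) * M j)) ^ q :=
          ENNReal.rpow_le_rpow (ENNReal.tsum_le_tsum hLj) hq0.le
      _ = _ := by
          rw [← ENNReal.ofReal_tsum_of_nonneg (fun j => mul_nonneg (by positivity) (hM0 j))
            (hM.mul_left _), tsum_mul_left]
  have hnorm : eLpNorm (ft g) (ENNReal.ofReal q) ≤
      ENNReal.ofReal (C ^ (1 / q) * ∑' j, M j) := by
    rw [eLpNorm_eq_lintegral_rpow_enorm_toReal (by simpa using hq0) ENNReal.ofReal_ne_top,
      ENNReal.toReal_ofReal hq0.le]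
    refine (ENNReal.rpow_le_rpow hle (by positivity)).trans (le_of_eq ?_)
    rw [← ENNReal.rpow_mul, mul_one_div_cancel hq0.ne', ENNReal.rpow_one]
  exact ⟨⟨hmeas.aestronglyMeasurable, hnorm.trans_lt ENNReal.ofReal_lt_top⟩, hnorm⟩

end Pool.Agent.Results.MP_6cbfb8_an.PluriharmonicDensities
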