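import Mathlib
import Pool.Agent.Y61.MB.M3
import Pool.Agent.Y61.MB.M9
import Pool.Agent.Results.MP_6cbfb8_an.SobolevDensities
set_option autoImplicit false

/-!
# Stein's restriction conjecture: transference of single densities to higher dimensions

Let `1 ≤ m ≤ n - 2`, let `F` be a bounded function of `m` real variables, and consider on every
sphere of dimension at least `m` the density `F(⟨v_1, x⟩, ..., ⟨v_m, x⟩)`, `v_1, ..., v_m`
orthonormal.

* If the Fourier transform of this density on the sphere of `ℝ^(m+1)` has `L^P` norm at most `K`,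
  and `|F| ≤ M`, then its Fourier transform on the sphere of `ℝ^n` has `L^q` norm at most
  `C (M + K)` whenever `(q - 2)((n-m-1)/2 + 1/(P-2)) > 1`. Here `C` does not depend on `F`.
* So if Stein's conjecture is true for the single density `F` on the sphere of `ℝ^(m+1)`, in the
  full range `P > 2(m+1)/m`, then it is true for this density on the spheres of all `ℝ^n`, in the
  full range `q > 2n/(n-1)`.
* Let `m ≥ 2`. For every bounded measurable `f` on `ℝ^m` and almost every `l ∈ (0,1)^m` the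
  dilated function `f(y_1/l_1, ..., y_m/l_m)`, cut off at the ellipsoid `∑ (y_j/l_j)² < 1`,
  satisfies Stein's conjecture in the full range in all dimensions `n ≥ m + 2` at once.
* Let `m ≥ 2`. If the density has a finite Gagliardo seminorm of order `s > m/(2(2m+1))` on the
  sphere of `ℝ^(m+1)`, then it satisfies Stein's conjecture in the full range in all dimensions
  `n ≥ m + 2`. The threshold does not depend on `n`; for general densities on the sphere of `ℝ^n`
  the threshold known is `(n-1)/(2(2n-1))`, which increases with `n`.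
-/

namespace Pool.Agent.Results.MP_6cbfb8_an.SingleDensityTransference

open MeasureTheory Metric
open scoped ENNReal RealInnerProductSpace

/-- surface measure on the unit sphere -/
noncomputable def sigma (n : ℕ) : Measure (sphere (0 : EuclideanSpace ℝ (Fin n)) 1) :=
  (volume : Measure (EuclideanSpace ℝ (Fin n))).toSphere

/-- the Fourier transform of the measure `g dσ` -/
noncomputable def ft {n : ℕ} (g : sphere (0 : EuclideanSpace ℝ (Fin n)) 1 → ℂ)
    (ξ : EuclideanSpace ℝ (Fin n)) : ℂ :=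
  ∫ x, Complex.exp (-(2 * Real.pi * ⟪(x : EuclideanSpace ℝ (Fin n)), ξ⟫ : ℝ) * Complex.I) * g x
    ∂(sigma n)

/-- Stein's conjecture holds for the density `g` on the unit sphere of `ℝ^n`: the Fourier transform
of `g dσ` is in `L^q(ℝ^n)` for all `q > 2n/(n-1)`. -/
def FullRange {n : ℕ} (g : sphere (0 : EuclideanSpace ℝ (Fin n)) 1 → ℂ) : Prop :=
  ∀ q : ℝ, 2 * (n : ℝ) / ((n : ℝ) - 1) < q → MemLp (ft g) (ENNReal.ofReal q)

/-- the density `F(⟨v_1, x⟩, ..., ⟨v_m, x⟩)` on the unit sphere of `ℝ^n` -/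
noncomputable def dens {n m : ℕ} (v : Fin m → EuclideanSpace ℝ (Fin n))
    (F : EuclideanSpace ℝ (Fin m) → ℂ) (x : sphere (0 : EuclideanSpace ℝ (Fin n)) 1) : ℂ :=
  F (WithLp.toLp 2 fun i => ⟪v i, (x : EuclideanSpace ℝ (Fin n))⟫)

/-- the dilated function `f(y_1/l_1, ..., y_m/l_m)` if `∑ (y_j/l_j)² < 1`, and `0` otherwise -/
noncomputable def dilate {m : ℕ} (l : Fin m → ℝ) (f : EuclideanSpace ℝ (Fin m) → ℂ)
    (y : EuclideanSpace ℝ (Fin m)) : ℂ :=
  if ∑ j, (y j / l j) ^ 2 < 1 then f (WithLp.toLp 2 fun j => y j / l j) else 0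

/-- the square of the Gagliardo seminorm of order `s` of the density `g` -/
noncomputable def energy {n : ℕ} (s : ℝ) (g : sphere (0 : EuclideanSpace ℝ (Fin n)) 1 → ℂ) :
    ℝ≥0∞ :=
  ∫⁻ x, ∫⁻ y, ENNReal.ofReal (‖g x - g y‖ ^ 2 /
    ‖(x : EuclideanSpace ℝ (Fin n)) - (y : EuclideanSpace ℝ (Fin n))‖ ^ ((n : ℝ) - 1 + 2 * s))
    ∂(sigma n) ∂(sigma n)

/-- the quantitative transference -/
theorem quantitative (m : ℕ) (hm : 1 ≤ m) (n : ℕ) (P q : ℝ) (hn : m + 2 ≤ n) (hP : 2 < P)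
    (h : 1 < (q - 2) * (((n : ℝ) - m - 1) / 2 + 1 / (P - 2))) :
    ∃ C : ℝ, 0 < C ∧ ∀ F : EuclideanSpace ℝ (Fin m) → ℂ, Measurable F → ∀ M K : ℝ, 0 ≤ K →
      (∀ y, ‖y‖ ≤ 1 → ‖F y‖ ≤ M) →
      ∀ (u : Fin m → EuclideanSpace ℝ (Fin (m + 1))) (v : Fin m → EuclideanSpace ℝ (Fin n)),
      Orthonormal ℝ u → Orthonormal ℝ v →
      eLpNorm (ft (dens u F)) (ENNReal.ofReal P) ≤ ENNReal.ofReal K →
      MemLp (ft (dens v F)) (ENNReal.ofReal q) ∧
      eLpNorm (ft (dens v F)) (ENNReal.ofReal q) ≤ ENNReal.ofReal (C * (M + K)) :=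
  Pool.Agent.Y61.MB.transfer_ft n m hm hn P q hP h

/-- the qualitative transference -/
theorem qualitative (m : ℕ) (hm : 1 ≤ m) (F : EuclideanSpace ℝ (Fin m) → ℂ) (hF : Measurable F)
    (hb : ∃ M : ℝ, ∀ y, ‖y‖ ≤ 1 → ‖F y‖ ≤ M) (u : Fin m → EuclideanSpace ℝ (Fin (m + 1)))
    (hu : Orthonormal ℝ u) (hfull : FullRange (dens u F)) (n : ℕ) (hn : m + 2 ≤ n)
    (v : Fin m → EuclideanSpace ℝ (Fin n)) (hv : Orthonormal ℝ v) : FullRange (dens v F) := by
  obtain ⟨M, hM⟩ := hb
  intro q hq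
  have hm' : (1 : ℝ) ≤ m := by exact_mod_cast hm
  have hn' : (m : ℝ) + 2 ≤ n := by exact_mod_cast hn
  have hnm : ((n - m : ℕ) : ℝ) = (n : ℝ) - m := by
    rw [Nat.cast_sub (by omega)]
  have h1 : 1 < (q - 2) * ((((n - m : ℕ) : ℝ) - 1) / 2 + (m : ℝ) / 2) := by
    rw [div_lt_iff₀ (by linarith)] at hq
    rw [hnm]
    nlinarith
  obtain ⟨P, hP, hPm, hPq⟩ := Pool.Agent.Y61.MB.exists_P' (n - m) (by omega) ((m : ℝ) / 2) q
    (by positivity) h1
  rw [hnm] at hPq
  obtain ⟨C, hC, hT⟩ := quantitative m hm n P q hn hP hPq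
  have h2 : MemLp (ft (dens u F)) (ENNReal.ofReal P) := by
    apply hfull
    push_cast
    rw [add_sub_cancel_right, div_lt_iff₀ (by linarith)]
    nlinarith
  refine (hT F hF M (eLpNorm (ft (dens u F)) (ENNReal.ofReal P)).toReal ENNReal.toReal_nonneg hM
    u v hu hv ?_).1
  rw [ENNReal.ofReal_toReal h2.2.ne]

/-- **Theorem.** Transference of single densities from the sphere of `ℝ^(m+1)` to the spheres of
higher dimensions, quantitatively and in the full range; the conjecture for almost every dilation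
of a function of `m` variables; the conjecture for Sobolev densities with a threshold independent of
the dimension. -/
theorem result (m : ℕ) (hm : 1 ≤ m) :
    (∀ (n : ℕ) (P q : ℝ), m + 2 ≤ n → 2 < P →
      1 < (q - 2) * (((n : ℝ) - m - 1) / 2 + 1 / (P - 2)) →
      ∃ C : ℝ, 0 < C ∧ ∀ F : EuclideanSpace ℝ (Fin m) → ℂ, Measurable F → ∀ M K : ℝ, 0 ≤ K →
        (∀ y, ‖y‖ ≤ 1 → ‖F y‖ ≤ M) →
        ∀ (u : Fin m → EuclideanSpace ℝ (Fin (m + 1))) (v : Fin m → EuclideanSpace ℝ (Fin n)),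
        Orthonormal ℝ u → Orthonormal ℝ v →
        eLpNorm (ft (dens u F)) (ENNReal.ofReal P) ≤ ENNReal.ofReal K →
        MemLp (ft (dens v F)) (ENNReal.ofReal q) ∧
        eLpNorm (ft (dens v F)) (ENNReal.ofReal q) ≤ ENNReal.ofReal (C * (M + K))) ∧
    (∀ F : EuclideanSpace ℝ (Fin m) → ℂ, Measurable F → (∃ M : ℝ, ∀ y, ‖y‖ ≤ 1 → ‖F y‖ ≤ M) →
      ∀ u : Fin m → EuclideanSpace ℝ (Fin (m + 1)), Orthonormal ℝ u → FullRange (dens u F) →
      ∀ n : ℕ, m + 2 ≤ n → ∀ v : Fin m → EuclideanSpace ℝ (Fin n), Orthonormal ℝ v →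
        FullRange (dens v F)) ∧
    (2 ≤ m → ∀ f : EuclideanSpace ℝ (Fin m) → ℂ, Measurable f → (∃ M : ℝ, ∀ y, ‖f y‖ ≤ M) →
      ∀ᵐ l : Fin m → ℝ, (∀ j, 0 < l j ∧ l j < 1) →
      ∀ n : ℕ, m + 2 ≤ n → ∀ v : Fin m → EuclideanSpace ℝ (Fin n), Orthonormal ℝ v →
        FullRange (dens v (dilate l f))) ∧
    (2 ≤ m → ∀ F : EuclideanSpace ℝ (Fin m) → ℂ, Measurable F →
      (∃ M : ℝ, ∀ y, ‖y‖ ≤ 1 → ‖F y‖ ≤ M) →
      ∀ u : Fin m → EuclideanSpace ℝ (Fin (m + 1)), Orthonormal ℝ u →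
      ∀ s : ℝ, (m : ℝ) / (2 * (2 * m + 1)) < s → energy s (dens u F) < ⊤ →
      ∀ n : ℕ, m + 2 ≤ n → ∀ v : Fin m → EuclideanSpace ℝ (Fin n), Orthonormal ℝ v →
        FullRange (dens v F)) := by
  refine ⟨quantitative m hm, qualitative m hm, ?_, ?_⟩
  · intro hm2 f hf hb
    obtain ⟨M, hM⟩ := hb
    filter_upwards [(Pool.Agent.Results.MP_6cbfb8_an.AveragedAllDimensions.result m hm2).2.2
      M f hf hM] with l hl hl01 n hn v hv
    have hM0 : 0 ≤ M := (norm_nonneg _).trans (hM 0)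
    refine qualitative m hm (dilate l f) (Pool.Agent.Y61.MB.dl_meas l f hf) ⟨M, fun y _ => ?_⟩
      (Pool.Agent.Y61.MB.u0 m) (Pool.Agent.Y61.MB.u0_orth m) ?_ n hn v hv
    · unfold dilate
      split_ifs
      · exact hM _
      · rw [norm_zero]; exact hM0
    · intro q hq
      refine Pool.Agent.Y61.MB.dl_memLp l hl01 f hf M hM (ENNReal.ofReal q) (hl hl01 q ?_)
      push_cast at hq
      rwa [add_sub_cancel_right] at hq
  · intro hm2 F hF hb u hu s hs hen n hn v hv
    refine qualitative m hm F hF hb u hu ?_ n hn v hv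
    obtain ⟨M, hM⟩ := hb
    have hmeas : Measurable (dens u F) :=
      (hF.comp (Pool.Agent.Y61.MB.co_meas' u)).comp measurable_subtype_coe
    have hbd : ∀ x, ‖dens u F x‖ ≤ M := by
      intro x
      apply hM
      have h1 := Pool.Agent.Y61.MB.co_norm u hu (x : EuclideanSpace ℝ (Fin (m + 1)))
      have h2 : ‖(x : EuclideanSpace ℝ (Fin (m + 1)))‖ = 1 := by simp
      rw [h2] at h1
      exact h1
    have hinf : MemLp (dens u F) ∞ (volume : Measure (EuclideanSpace ℝ (Fin (m + 1)))).toSphere :=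
      memLp_top_of_bound hmeas.aestronglyMeasurable M (Filter.Eventually.of_forall hbd)
    intro q hq
    exact Pool.Agent.Results.MP_6cbfb8_an.SobolevDensities.result (m + 1) (by omega) s (by
      push_cast
      refine lt_of_le_of_lt (le_of_eq ?_) hs
      congr 1 <;> ring) (dens u F) hinf hen q hq

end Pool.Agent.Results.MP_6cbfb8_an.SingleDensityTransference
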