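import Mathlib
import Pool.Agent.Y250.SS.HD2
import Pool.Agent.Y25.SS.Kn
set_option autoImplicit false

/-!
# Stein's restriction conjecture: densities with arbitrary smooth phases

We consider densities `e^{iφ} g` on the unit sphere, where `φ` is a real function and `g` is a fixed
amplitude of low regularity.

* On the sphere of `ℝ³` and in the full range `q > 3` we bound the `L^q(ℝ³)` norm of the Fourier
  transform of `e^{iφ} g dσ` for `g` in the Besov class `B^s_{2,∞}`, `s > max(0, 4/q - 1)`, and `φ` of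
  class `C^k`, `k ≥ 2`. The bound depends on `φ` only through the size `A` of its derivatives of order
  `k`, by the factor `k^8 (1 + A/(k-2)!)^{4/k}`; nothing is assumed on the derivatives of lower order.
  For `A = 0` these are all real polynomials of degree less than `k`, and the bound does not depend
  on their coefficients.
* The condition on `s` is optimal up to the endpoint already for `φ = 0`: multiplication by
  an arbitrary polynomial phase needs no additional regularity.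
* Real analytic phases of size `A` lose at most a power of `log A`; for a fixed smooth function `φ`
  the phases `λφ` lose at most `|λ|^ε` for every `ε > 0`.
* In every dimension `n ≥ 4` and in the full range `q > 2n/(n-1)` the same is true for densities
  which depend on two coordinates only, `e^{iφ(x_1,x_2)} g(x_1,x_2)` in an orthonormal frame, if
  `s (2 - (n-4)(q-2)) > 2 - (n-2)(q-2)`, for instance with `s = 1/3` for all these `q`.
-/

namespace Pool.Agent.Results.MP_6cbfb8_an.SphericalTwists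

open MeasureTheory Set Metric Complex
open scoped ENNReal NNReal RealInnerProductSpace

/-- `n`-dimensional space -/
abbrev E (n : ℕ) := EuclideanSpace ℝ (Fin n)

/-- surface measure on the unit sphere of `ℝ^n` -/
noncomputable def sigma (n : ℕ) : Measure (sphere (0 : E n) 1) := (volume : Measure (E n)).toSphere

/-- the Fourier transform of the measure `g dσ` -/
noncomputable def ft {n : ℕ} (g : sphere (0 : E n) 1 → ℂ) (ξ : E n) : ℂ :=
  ∫ x, Complex.exp (-(2 * Real.pi * ⟪(x : E n), ξ⟫ : ℝ) * I) * g x ∂(sigma n)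

/-- `g` is in the Besov class `B^s_{2,∞}` of the sphere of `ℝ³` with norm at most `K`: its `L²` norm is
at most `K`, and the integral of `|g(y) - g(x)|²` over all pairs of points at distance at most `δ` is
at most `K² δ^(2+2s)`. -/
structure Besov (s : ℝ) (K : ℝ≥0) (g : sphere (0 : E 3) 1 → ℂ) : Prop where
  meas : Measurable g
  two : eLpNorm g 2 (sigma 3) ≤ K
  diff : ∀ δ : ℝ, 0 < δ → δ ≤ 1 →
    ∫⁻ x, (∫⁻ y in {y : sphere (0 : E 3) 1 | ‖(y : E 3) - (x : E 3)‖ ≤ δ}, ‖g y - g x‖ₑ ^ 2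
      ∂(sigma 3)) ∂(sigma 3) ≤ K ^ 2 * ENNReal.ofReal (δ ^ (2 + 2 * s))

/-- the coordinates `⟨v_1, x⟩, ⟨v_2, x⟩` -/
noncomputable def co {n : ℕ} (v : Fin 2 → E n) (x : E n) : E 2 := WithLp.toLp 2 fun i => ⟪v i, x⟫

/-- the `L^q` norm of the Fourier transform of `e^{iφ} g dσ` -/
noncomputable def nrm {n : ℕ} (q : ℝ) (φ : E n → ℝ) (g : sphere (0 : E n) 1 → ℂ) : ℝ≥0∞ :=
  eLpNorm (ft fun x => Complex.exp (I * φ x) * g x) (ENNReal.ofReal q) volume

/-- `φ` is of class `C^k` and its `k`-th derivative has norm at most `A` on the unit ball -/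
def DerivLE {m : ℕ} (k : ℕ) (A : ℝ) (φ : E m → ℝ) : Prop :=
  ContDiff ℝ k φ ∧ ∀ x, ‖x‖ ≤ 1 → ‖iteratedFDeriv ℝ k φ x‖ ≤ A

/-- the factor `k^8 (1 + A/(k-2)!)^{4/k}` -/
noncomputable def loss (k : ℕ) (A : ℝ≥0) : ℝ≥0 :=
  (k : ℝ≥0) ^ 8 * (1 + A / ((k - 2).factorial : ℝ≥0)) ^ (4 / (k : ℝ))

/-- `q > 3`, `0 < s ≤ 1` and `s > 4/q - 1` -/
def Range (q s : ℝ) : Prop := 3 < q ∧ 0 < s ∧ s ≤ 1 ∧ 4 / q - 1 < s

/-- (1) For `q, s` in this range there is a constant `C` such that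
`‖(e^{iφ} g dσ)^‖_q ≤ C k^8 (1 + A/(k-2)!)^{4/k} K` for all `k ≥ 2`, all real functions `φ` of class
`C^k` on `ℝ³` with `k`-th derivative bounded by `A` on the unit ball, and all `g` on the sphere of
`ℝ³` in the Besov class `B^s_{2,∞}` with norm at most `K`. -/
def AllPhases : Prop := ∀ q s : ℝ, Range q s →
  ∃ C : ℝ≥0, ∀ (k : ℕ) (φ : E 3 → ℝ) (A K : ℝ≥0) (g : sphere (0 : E 3) 1 → ℂ), 2 ≤ k →
    DerivLE k A φ → Besov s K g → nrm q φ g ≤ C * loss k A * K

/-- (2) If `q > 3` and `0 < s < 4/q - 1` there is no constant `C` with `‖(g dσ)^‖_q ≤ C K` for all these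
`g`. -/
def Optimal : Prop := ∀ q s : ℝ, 3 < q → 0 < s → s < 4 / q - 1 → ∀ C : ℝ≥0,
  ∃ (g : sphere (0 : E 3) 1 → ℂ) (K : ℝ≥0), Besov s K g ∧ C * K < nrm q 0 g

/-- (3) For `q, s` in the range of (1) there is a constant `C` such that
`‖(e^{iφ} g dσ)^‖_q ≤ C R^4 (2 + log(1 + A))^8 K` for all real functions `φ` of class `C^∞` on `ℝ³` with
`|D^k φ| ≤ A R^k k!` on the unit ball for all `k ≥ 2`, where `A ≥ 0` and `R ≥ 1`, and all `g` as in
(1). -/
def AnalyticPhases : Prop := ∀ q s : ℝ, Range q s →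
  ∃ C : ℝ≥0, ∀ (φ : E 3 → ℝ) (A R : ℝ) (K : ℝ≥0) (g : sphere (0 : E 3) 1 → ℂ), 0 ≤ A → 1 ≤ R →
    (∀ k : ℕ, 2 ≤ k → DerivLE k (A * R ^ k * k.factorial) φ) → Besov s K g →
    nrm q φ g ≤ C * ENNReal.ofReal (R ^ 4 * (2 + Real.log (1 + A)) ^ 8) * K

/-- (4) For `q, s` in the range of (1), `ε > 0` and a real function `φ` of class `C^∞` on `ℝ³` there is
a constant `C` such that `‖(e^{iλφ} g dσ)^‖_q ≤ C |λ|^ε K` for all real `λ` with `|λ| ≥ 1` and all `g` as
in (1). -/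
def SmoothPhases : Prop := ∀ q s : ℝ, Range q s →
  ∀ φ : E 3 → ℝ, ContDiff ℝ (⊤ : ℕ∞) φ → ∀ ε : ℝ, 0 < ε →
  ∃ C : ℝ≥0, ∀ (l : ℝ) (K : ℝ≥0) (g : sphere (0 : E 3) 1 → ℂ), 1 ≤ |l| → Besov s K g →
    nrm q (fun x => l * φ x) g ≤ C * ENNReal.ofReal (|l| ^ ε) * K

/-- (5) Let `n ≥ 4`, `q > 2n/(n-1)`, `0 < s ≤ 1` and `s (2 - (n-4)(q-2)) > 2 - (n-2)(q-2)` (this is
true for `s = 1/3`; for `n = 3` it would be the condition of (1)). There is a constant `C` such that
`‖(e^{iφ(⟨v_1,x⟩,⟨v_2,x⟩)} g(⟨v_1,x⟩,⟨v_2,x⟩) dσ(x))^‖_q ≤ C (M + k^8 (1 + A/(k-2)!)^{4/k} K)` for all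
orthonormal `v_1, v_2` in `ℝ^n`, all `k ≥ 2`, all real functions `φ` of class `C^k` on `ℝ²` with `k`-th
derivative bounded by `A` on the unit disc, and all `g` bounded by `M` on the unit disc for which the
function `g(⟨u_1,x⟩,⟨u_2,x⟩)` on the sphere of `ℝ³`, `u_1, u_2` orthonormal, is in the Besov class
`B^s_{2,∞}` with norm at most `K`. -/
def HigherDimensions : Prop := ∀ (n : ℕ) (q s : ℝ), 4 ≤ n → 2 * (n : ℝ) / ((n : ℝ) - 1) < q →
  0 < s → s ≤ 1 → 2 - ((n : ℝ) - 2) * (q - 2) < s * (2 - ((n : ℝ) - 4) * (q - 2)) →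
  ∃ C : ℝ≥0, ∀ (k : ℕ) (φ : E 2 → ℝ) (A M K : ℝ≥0) (g : E 2 → ℂ) (u : Fin 2 → E 3)
    (v : Fin 2 → E n), 2 ≤ k → Orthonormal ℝ u → Orthonormal ℝ v → DerivLE k A φ → Measurable g →
    (∀ y, ‖y‖ ≤ 1 → ‖g y‖ ≤ M) → Besov s K (fun x => g (co u x)) →
    nrm q (fun x => φ (co v x)) (fun x => g (co v x)) ≤ C * (M + loss k A * K)

theorem two_iff (K : ℝ≥0) (g : sphere (0 : E 3) 1 → ℂ) :
    eLpNorm g 2 (sigma 3) ≤ K ↔ ∫⁻ x, ‖g x‖ₑ ^ 2 ∂(sigma 3) ≤ K ^ 2 := by
  have e : eLpNorm g 2 (sigma 3) ^ 2 = ∫⁻ x, ‖g x‖ₑ ^ 2 ∂(sigma 3) := by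
    rw [eLpNorm_eq_lintegral_rpow_enorm_toReal (by norm_num) (by norm_num)]
    simp only [ENNReal.toReal_ofNat, one_div, ENNReal.rpow_ofNat]
    rw [← ENNReal.rpow_natCast, ← ENNReal.rpow_mul]
    norm_num
  rw [← e]
  exact (ENNReal.pow_le_pow_left_iff (by norm_num)).symm

theorem besov_iff {s : ℝ} {K : ℝ≥0} {g : sphere (0 : E 3) 1 → ℂ} :
    Besov s K g ↔ Pool.Agent.Y250.SS.BesS s K g :=
  ⟨fun h => ⟨h.meas, (two_iff K g).1 h.two, h.diff⟩,
    fun h => ⟨h.1, (two_iff K g).2 h.2.1, h.2.2⟩⟩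

theorem nrm_eq (q : ℝ) (φ : E 3 → ℝ) (g : sphere (0 : E 3) 1 → ℂ) : nrm q φ g =
    eLpNorm (Pool.Agent.Y250.SS.ft fun x => Complex.exp ((φ x : ℂ) * I) * g x)
      (ENNReal.ofReal q) volume := by
  unfold nrm
  congr 1
  funext ξ
  unfold ft Pool.Agent.Y250.SS.ft
  congr 1
  funext x
  dsimp only
  rw [mul_comm I]

/-- **Theorem.** For `q > 3` and `0 < s ≤ 1`, `s > 4/q - 1`, the Fourier transforms of the densities
`e^{iφ} g` on the sphere of `ℝ³`, `g` of Besov regularity `s`, are in `L^q` with bounds that depend on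
the size of the derivatives of order `k` of `φ` only (`AllPhases`); the range of `s` is optimal up to
the endpoint (`Optimal`); the loss is a power of a logarithm for analytic phases (`AnalyticPhases`)
and an arbitrarily small power for smooth phases (`SmoothPhases`); the corresponding statement is
true in all dimensions `n ≥ 4` for functions of two coordinates (`HigherDimensions`). -/
theorem result : AllPhases ∧ Optimal ∧ AnalyticPhases ∧ SmoothPhases ∧ HigherDimensions := by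
  refine ⟨?_, ?_, ?_, ?_, ?_⟩
  · intro q s ⟨hq, hs0, hs1, hs⟩
    obtain ⟨C, hC⟩ := Pool.Agent.Y250.SS.smooth2 q s hq hs0 hs hs1
    refine ⟨C, ?_⟩
    intro k φ A K g hk hφ hg
    have h := hC k φ A K g hk hφ.1 hφ.2 (besov_iff.1 hg)
    rw [nrm_eq]
    refine h.trans (le_of_eq ?_)
    rw [ENNReal.coe_mul, ← mul_assoc]
    rfl
  · intro q s hq hs0 hs C
    obtain ⟨g, K, h1, h2⟩ := Pool.Agent.Y25.SS.kn Pool.Agent.Y250.SS.hSG Pool.Agent.Y250.SS.hXF
      q s hq hs0 hs C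
    refine ⟨g, K, besov_iff.2 h1, ?_⟩
    rw [nrm_eq]
    refine lt_of_lt_of_eq h2 ?_
    congr 1
    congr 1
    funext x
    simp
  · intro q s ⟨hq, hs0, hs1, hs⟩
    obtain ⟨C, hC⟩ := Pool.Agent.Y250.SS.ana2 q s hq hs0 hs hs1
    refine ⟨C, ?_⟩
    intro φ A R K g hA hR hder hg
    have hφ : ContDiff ℝ (⊤ : ℕ∞) φ := by
      rw [contDiff_infty]
      intro n
      exact (hder (n + 2) (by omega)).1.of_le (by exact_mod_cast Nat.le_add_right n 2)
    have h := hC φ A R K g hA hR hφ (fun k hk => (hder k hk).2) (besov_iff.1 hg)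
    rw [nrm_eq]
    exact h
  · intro q s ⟨hq, hs0, hs1, hs⟩ φ hφ ε hε
    obtain ⟨C, hC⟩ := Pool.Agent.Y250.SS.lam2 q s hq hs0 hs hs1 φ hφ ε hε
    refine ⟨C, ?_⟩
    intro l K g hl hg
    rw [nrm_eq]
    exact hC l K g hl (besov_iff.1 hg)
  · intro n q s hn hq hs0 hs1 hs
    obtain ⟨C, hC⟩ := Pool.Agent.Y250.SS.high2 n q s hn hq hs0 hs1 hs
    refine ⟨C, ?_⟩
    intro k φ A M K g u v hk hu hv hφ hg hM hB
    have h := hC k φ A M K g u v hk hu hv hφ.1 hφ.2 hg hM (besov_iff.1 hB)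
    refine le_trans (le_of_eq ?_) (h.trans (le_of_eq ?_))
    · unfold nrm
      congr 1
      funext ξ
      unfold ft Pool.Agent.Y61.MB.ft
      congr 1
      funext x
      dsimp only
      rw [mul_comm I]
      rfl
    · rw [ENNReal.coe_add, ENNReal.coe_mul]
      rfl

end Pool.Agent.Results.MP_6cbfb8_an.SphericalTwists
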